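import Pool.Agent.H629.TA.Stm

/-!
Triangles after one step.
-/

set_option autoImplicit false

open Finset

namespace Pool.Agent.H707.TA.TR

open Pool.Agent.H629.TA

/-- the summand of `tri` -/
def F (m : ℕ) (h : Hist m) (a b c : ℕ) : ℕ :=
  if a < b ∧ b < c then mult m h a b * mult m h b c * mult m h a c else 0

theorem tri_eq (m : ℕ) (h : Hist m) (n : ℕ) :
    tri m h n = ∑ a ∈ Icc 1 n, ∑ b ∈ Icc 1 n, ∑ c ∈ Icc 1 n, F m h a b c := rfl

theorem tri_congr (m : ℕ) (h h' : Hist m) (n : ℕ)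
    (H : ∀ a ∈ Icc 1 n, ∀ b ∈ Icc 1 n, mult m h a b = mult m h' a b) : tri m h n = tri m h' n := by
  rw [tri_eq, tri_eq]
  refine sum_congr rfl fun a ha => sum_congr rfl fun b hb => sum_congr rfl fun c hc => ?_
  unfold F
  rw [H a ha b hb, H b hb c hc, H a ha c hc]

theorem t_TD : S_TD := by
  intro m n h h' H
  refine tri_congr m h h' n fun a ha b hb => ?_
  unfold mult
  by_cases hab : a = b
  · rw [if_pos hab, if_pos hab]
  · rw [if_neg hab, if_neg hab]
    by_cases h2 : max a b ≤ 2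
    · rw [if_pos h2, if_pos h2]
    · rw [if_neg h2, if_neg h2]
      have hmax : max a b ∈ Icc 3 n := by
        rw [mem_Icc] at ha hb ⊢
        omega
      refine congrArg Finset.card (filter_congr fun l _ => ?_)
      rw [H (max a b) hmax l]

theorem tri_succ (m k : ℕ) (h : Hist m) :
    tri m h (k + 1) = tri m h k + ∑ a ∈ Icc 1 k, ∑ b ∈ Icc 1 k,
      if a < b then mult m h a b * mult m h b (k + 1) * mult m h a (k + 1) else 0 := by
  rw [tri_eq, tri_eq, sum_Icc_succ_top (by omega)]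
  have h1 : ∑ b ∈ Icc 1 (k + 1), ∑ c ∈ Icc 1 (k + 1), F m h (k + 1) b c = 0 := by
    refine sum_eq_zero fun b hb => sum_eq_zero fun c hc => ?_
    rw [mem_Icc] at hb
    unfold F
    rw [if_neg (by omega)]
  rw [h1, add_zero, ← sum_add_distrib]
  refine sum_congr rfl fun a ha => ?_
  rw [sum_Icc_succ_top (by omega)]
  have h2 : ∑ c ∈ Icc 1 (k + 1), F m h a (k + 1) c = 0 := by
    refine sum_eq_zero fun c hc => ?_
    rw [mem_Icc] at hc
    unfold F
    rw [if_neg (by omega)]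
  rw [h2, add_zero, ← sum_add_distrib]
  refine sum_congr rfl fun b hb => ?_
  rw [sum_Icc_succ_top (by omega)]
  refine congrArg (fun t => ∑ c ∈ Icc 1 k, F m h a b c + t) ?_
  rw [mem_Icc] at hb
  unfold F
  by_cases hab : a < b
  · rw [if_pos hab, if_pos ⟨hab, by omega⟩]
  · rw [if_neg hab, if_neg (fun h => hab h.1)]

theorem sum_lt_symm (s : Finset ℕ) (G : ℕ → ℕ → ℝ) (hs : ∀ a b, G a b = G b a) (h0 : ∀ a, G a a = 0) :
    ∑ a ∈ s, ∑ b ∈ s, (if a < b then G a b else 0) = (1 / 2) * ∑ a ∈ s, ∑ b ∈ s, G a b := by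
  have h1 : ∑ a ∈ s, ∑ b ∈ s, G a b =
      ∑ a ∈ s, ∑ b ∈ s, (if a < b then G a b else 0) + ∑ a ∈ s, ∑ b ∈ s, (if b < a then G a b else 0) := by
    rw [← sum_add_distrib]
    refine sum_congr rfl fun a _ => ?_
    rw [← sum_add_distrib]
    refine sum_congr rfl fun b _ => ?_
    rcases lt_trichotomy a b with h | h | h
    · rw [if_pos h, if_neg (by omega), add_zero]
    · rw [if_neg (by omega), if_neg (by omega), add_zero, h, h0]
    · rw [if_neg (by omega), if_pos h, zero_add]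
  have h2 : ∑ a ∈ s, ∑ b ∈ s, (if b < a then G a b else 0) =
      ∑ a ∈ s, ∑ b ∈ s, (if a < b then G a b else 0) := by
    rw [sum_comm]
    refine sum_congr rfl fun a _ => sum_congr rfl fun b _ => ?_
    rw [hs b a]
  rw [h1, h2]
  ring

theorem t_TR : S_UP → S_TR := by
  intro hUP m k h j hk hj
  obtain ⟨hsym, hdiag, hmul, hnew, _, _, _⟩ := hUP m k h j hk hj
  have h1 : tri m (Function.update h (k + 1) j) k = tri m h k := tri_congr _ _ _ _ hmul
  have h2 := tri_succ m k (Function.update h (k + 1) j)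
  rw [h1] at h2
  refine ⟨h1, by omega, ?_⟩
  unfold xi
  rw [h1, h2, Nat.add_sub_cancel_left, ← sum_lt_symm (Icc 1 k)
    (fun a b => (mult m h a b : ℝ) * ((cnt j a : ℝ) * (cnt j b : ℝ)))
    (fun a b => by
      show (mult m h a b : ℝ) * ((cnt j a : ℝ) * (cnt j b : ℝ)) =
        (mult m h b a : ℝ) * ((cnt j b : ℝ) * (cnt j a : ℝ))
      rw [hsym a b]; ring)
    (fun a => by
      show (mult m h a a : ℝ) * ((cnt j a : ℝ) * (cnt j a : ℝ)) = 0
      rw [hdiag a]; simp)]
  rw [Nat.cast_sum]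
  refine sum_congr rfl fun a ha => ?_
  rw [Nat.cast_sum]
  refine sum_congr rfl fun b hb => ?_
  by_cases hab : a < b
  · rw [if_pos hab, if_pos hab, hmul a ha b hb, hnew b hb, hnew a ha]
    push_cast
    ring
  · rw [if_neg hab, if_neg hab, Nat.cast_zero]

end Pool.Agent.H707.TA.TR
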